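import Pool.Agent.Y990.CB.Stm2
import Pool.Agent.Y990.CB.Fin

set_option autoImplicit false

open MeasureTheory Set

/-!
Two large clusters in a box (project CB of helper990): `S_box2` from the contact inequality
`S_ctc`.
-/

namespace Pool.Agent.Y290.CB

open Pool.Agent.W783.PC (pm DepOn Inc)
open Pool.Agent.W424.PC (cfgOf)
open Pool.Agent.Y990.PL (Expl)
open Pool.Agent.Y990.CB
open Pool.Agent.Y689.CB (Nf_anti cfg_mono cfg_true)
open H974 (Ex Ok ind Pr)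

noncomputable section

variable {d : ℕ}

open scoped Classical in
/-- Quadruples of vertices of a box whose two edges share a coordinate. -/
def Tq (M : Mod d) (L : ℕ) : Finset ((Z d × Z d) × (Z d × Z d)) :=
  ((Bf 0 L ×ˢ Bf 0 L) ×ˢ (Bf 0 L ×ˢ Bf 0 L)).filter
    (fun q => Nb q.1.1 q.1.2 ∧ Nb q.2.1 q.2.2 ∧ ∃ c ∈ M.nd q.1.1 q.1.2, c ∈ M.nd q.2.1 q.2.2)

open scoped Classical in
/-- The coordinates of a quadruple. -/
def Pq (M : Mod d) (q : (Z d × Z d) × (Z d × Z d)) : Finset M.ι :=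
  M.nd q.1.1 q.1.2 ∪ M.nd q.2.1 q.2.2

open scoped Classical in
lemma mem_Tq {M : Mod d} {L : ℕ} {q : (Z d × Z d) × (Z d × Z d)} : q ∈ Tq M L ↔
    ((q.1.1 ∈ Bo (0 : Z d) L ∧ q.1.2 ∈ Bo (0 : Z d) L) ∧
      (q.2.1 ∈ Bo (0 : Z d) L ∧ q.2.2 ∈ Bo (0 : Z d) L)) ∧
    Nb q.1.1 q.1.2 ∧ Nb q.2.1 q.2.2 ∧ ∃ c ∈ M.nd q.1.1 q.1.2, c ∈ M.nd q.2.1 q.2.2 := by
  unfold Tq
  rw [Finset.mem_filter, Finset.mem_product, Finset.mem_product, Finset.mem_product,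
    mem_Bf, mem_Bf, mem_Bf, mem_Bf]

open scoped Classical in
lemma Pq_card (M : Mod d) (q : (Z d × Z d) × (Z d × Z d)) : (Pq M q).card ≤ 4 := by
  unfold Pq
  refine (Finset.card_union_le _ _).trans ?_
  have h1 := M.card q.1.1 q.1.2
  have h2 := M.card q.2.1 q.2.2
  omega

lemma Bo_step {z x y : Z d} {k : ℕ} (hx : x ∈ Bo z k) (h : Nb x y) : y ∈ Bo z (k + 1) := by
  intro i
  have h1 := abs_le.1 (hx i)
  have h2 := abs_le.1 (Nb_coord h i)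
  push_cast
  rw [abs_le]
  constructor <;> linarith [h1.1, h1.2, h2.1, h2.2]

lemma Bo_step' {z x y : Z d} {k : ℕ} (hx : x ∈ Bo z k) (h : Nb x y) : y ∈ Bo z (k + 1) ∧
    x ∈ Bo z (k + 1) := ⟨Bo_step hx h, Bo_mono z (Nat.le_succ k) hx⟩

/-- Pairs sharing a coordinate are close. -/
lemma near {M : Mod d} {z a b a' b' : Z d} {k : ℕ} {c : M.ι} (ha : a ∈ Bo z k) (hb : b ∈ Bo z k)
    (hN : Nb a' b') (hc : c ∈ M.nd a b) (hc' : c ∈ M.nd a' b') :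
    a' ∈ Bo z (k + 1) ∧ b' ∈ Bo z (k + 1) := by
  rcases M.loc a b a' b' c hc hc' with h | h | h | h
  · have h' : a' ∈ Bo z k := by rw [h]; exact ha
    exact ⟨(Bo_step' h' hN).2, (Bo_step' h' hN).1⟩
  · have h' : a' ∈ Bo z k := by rw [h]; exact hb
    exact ⟨(Bo_step' h' hN).2, (Bo_step' h' hN).1⟩
  · have h' : b' ∈ Bo z k := by rw [h]; exact ha
    have := Bo_step' h' (Nb_comm.1 hN)
    exact ⟨this.1, this.2⟩
  · have h' : b' ∈ Bo z k := by rw [h]; exact hb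
    have := Bo_step' h' (Nb_comm.1 hN)
    exact ⟨this.1, this.2⟩

open scoped Classical in
/-- Every coordinate belongs to a bounded number of quadruples. -/
lemma Tq_count (M : Mod d) (L : ℕ) (c : M.ι) :
    ((Tq M L).filter (fun q => c ∈ Pq M q)).card ≤ 7 ^ (4 * d) := by
  rcases ((Tq M L).filter (fun q => c ∈ Pq M q)).eq_empty_or_nonempty with he | ⟨q0, hq0⟩
  · rw [he]
    simp
  · -- an edge containing `c`
    obtain ⟨e, f, hef, hc0⟩ : ∃ e f : Z d, Nb e f ∧ c ∈ M.nd e f := by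
      rw [Finset.mem_filter] at hq0
      obtain ⟨h1, h2⟩ := hq0
      obtain ⟨-, h3, h4, -⟩ := mem_Tq.1 h1
      unfold Pq at h2
      rcases Finset.mem_union.1 h2 with h | h
      · exact ⟨_, _, h3, h⟩
      · exact ⟨_, _, h4, h⟩
    have he1 : e ∈ Bo e 1 := self_mem_Bo e 1
    have hf1 : f ∈ Bo e 1 := (Bo_step (self_mem_Bo e 0) hef)
    have hsub : (Tq M L).filter (fun q => c ∈ Pq M q) ⊆
        (Bf e 3 ×ˢ Bf e 3) ×ˢ (Bf e 3 ×ˢ Bf e 3) := by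
      intro q hq
      rw [Finset.mem_filter] at hq
      obtain ⟨h1, h2⟩ := hq
      obtain ⟨-, h3, h4, c', hc1, hc2⟩ := mem_Tq.1 h1
      rw [Finset.mem_product, Finset.mem_product, Finset.mem_product, mem_Bf, mem_Bf, mem_Bf,
        mem_Bf]
      unfold Pq at h2
      rcases Finset.mem_union.1 h2 with h | h
      · have k1 := near he1 hf1 h3 hc0 h
        have k2 := near k1.1 k1.2 h4 hc1 hc2
        exact ⟨⟨Bo_mono e (by norm_num) k1.1, Bo_mono e (by norm_num) k1.2⟩, k2⟩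
      · have k1 := near he1 hf1 h4 hc0 h
        have k2 := near k1.1 k1.2 h3 hc2 hc1
        exact ⟨k2, ⟨Bo_mono e (by norm_num) k1.1, Bo_mono e (by norm_num) k1.2⟩⟩
    refine (Finset.card_le_card hsub).trans ?_
    rw [Finset.card_product, Finset.card_product, card_Bf]
    have : (2 * 3 + 1 : ℕ) = 7 := by norm_num
    rw [this, ← pow_add, ← pow_add]
    exact le_of_eq (by congr 1; omega)

/-- Merging through the coordinates of a quadruple. -/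
lemma merge_reach {M : Mod d} {R : Set (Z d)} {ω : M.ι → Bool} {a b a' b' x y : Z d} {c : M.ι}
    (ha : a ∈ R) (hb : b ∈ R) (ha' : a' ∈ R) (hb' : b' ∈ R) (h1 : Nb a b) (h2 : Nb a' b')
    (hc : c ∈ M.nd a b) (hc' : c ∈ M.nd a' b') (ho : ∀ c ∈ M.nd a b, ω c = true)
    (ho' : ∀ c ∈ M.nd a' b', ω c = true) (hy : a ∈ cl M ω R y) (hx : a' ∈ cl M ω R x) :
    y ∈ cl M ω R x := by
  have e1 : (G M ω R).Reachable a b := SimpleGraph.Adj.reachable ⟨h1, ha, hb, ho⟩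
  have e2 : (G M ω R).Reachable a' b' := SimpleGraph.Adj.reachable ⟨h2, ha', hb', ho'⟩
  have e3 : (G M ω R).Reachable a' a := by
    rcases M.loc a b a' b' c hc hc' with h | h | h | h
    · rw [h]
    · rw [h]; exact e1.symm
    · rw [← h]; exact e2
    · rw [h] at e2; exact e2.trans e1.symm
  exact (SimpleGraph.Reachable.trans hx e3).trans (SimpleGraph.Reachable.symm hy)

/-- The event of a quadruple. -/
def Eq4 (M : Mod d) (L m : ℕ) (x y a a' : Z d) : Set (M.ι → Bool) :=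
  {ω | ω ∈ Ev M L m x y ∧ a ∈ cl M ω (Bo 0 L) y ∧ a' ∈ cl M ω (Bo 0 L) x}

lemma Eq4_dep (M : Mod d) (L m : ℕ) (x y a a' : Z d) :
    DepOn (Eq4 M L m x y a a') (In M (Bo 0 L)) := by
  intro ω ω' h
  unfold Eq4 Ev cl
  simp only [mem_ofPred_eq]
  rw [graph_congr h]

open scoped Classical in
/-- The increment of `Nf` at a quadruple. -/
def dq (M : Mod d) (p : unitInterval) (L m : ℕ) (S : Finset M.ι)
    (q : (Z d × Z d) × (Z d × Z d)) : ℝ :=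
  Ex (fun _ : M.ι => (p : ℝ)) S (fun A =>
    Nf m (Bf 0 L) (fun u A => cl M (cfgOf A) (Bo 0 L) u) A -
    Nf m (Bf 0 L) (fun u A => cl M (cfgOf A) (Bo 0 L) u) (A ∪ Pq M q))

open scoped Classical in
theorem Eq4_le (M : Mod d) (p : unitInterval) (L m : ℕ) (hm : 1 ≤ m) (S : Finset M.ι)
    (hS : (S : Set M.ι) = In M (Bo 0 L)) (x y : Z d) (hx : x ∈ Bo (0 : Z d) L)
    (hy : y ∈ Bo (0 : Z d) L) (q : (Z d × Z d) × (Z d × Z d)) (hq : q ∈ Tq M L) :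
    (mu M p).real (Eq4 M L m x y q.1.1 q.2.1) ≤ dq M p L m S q := by
  have hp0 : (0 : ℝ) ≤ p := p.2.1
  have hp1 : (p : ℝ) ≤ 1 := p.2.2
  have hok : Ok (fun _ : M.ι => (p : ℝ)) := fun _ => ⟨hp0, hp1⟩
  set B : Finset (Z d) := Bf 0 L with hBdef
  have hBc : (B : Set (Z d)) = Bo 0 L := coe_Bf 0 L
  set C : Z d → Finset M.ι → Set (Z d) := fun u A => cl M (cfgOf A) (Bo 0 L) u with hC
  have hC1 : ∀ u ∈ B, ∀ A, C u A ⊆ B := by
    intro u hu A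
    rw [hBc]
    exact cl_subset (mem_Bf.1 hu)
  have hC2 : ∀ u ∈ B, ∀ A, u ∈ C u A := fun u _ A => SimpleGraph.Reachable.refl u
  have hC3 : ∀ u ∈ B, ∀ A, ∀ w ∈ C u A, C w A = C u A := fun u _ A w hw => cl_eq hw
  have hC4 : ∀ u ∈ B, ∀ A A', A ⊆ A' → C u A ⊆ C u A' := fun u _ A A' h =>
    cl_mono (cfg_mono h) (Subset.refl _) u
  have hdep : DepOn (Eq4 M L m x y q.1.1 q.2.1) (S : Set M.ι) := by
    rw [hS]; exact Eq4_dep M L m x y _ _
  unfold mu dq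
  rw [Pool.Agent.Y288.PL.pm_eq_Pr (fun _ => p) hdep]
  refine H974.Ex_mono hok fun A hA => ?_
  by_cases hD : cfgOf A ∈ Eq4 M L m x y q.1.1 q.2.1
  · rw [H974.ind_of hD]
    obtain ⟨⟨hD1, hD2, hD3⟩, hD4, hD5⟩ := hD
    obtain ⟨⟨⟨b1, b2⟩, b3, b4⟩, n1, n2, c, c1, c2⟩ := mem_Tq.1 hq
    refine Pool.Agent.Y960.CB.merge M.ι (Z d) B C m hm hC1 hC2 hC3 hC4 A (A ∪ Pq M q)
      Finset.subset_union_left x (mem_Bf.2 hx) y (mem_Bf.2 hy) hD1 hD2 hD3 ?_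
    have hsub : A ⊆ A ∪ Pq M q := Finset.subset_union_left
    refine merge_reach b1 b2 b3 b4 n1 n2 c1 c2 ?_ ?_ (hC4 y (mem_Bf.2 hy) A _ hsub hD4)
      (hC4 x (mem_Bf.2 hx) A _ hsub hD5)
    · intro c hc
      refine cfg_true (Finset.mem_union_right _ ?_)
      exact Finset.mem_union_left _ hc
    · intro c hc
      refine cfg_true (Finset.mem_union_right _ ?_)
      exact Finset.mem_union_right _ hc
  · rw [H974.ind_not_of hD]
    have := Nf_anti hm hC1 hC4 (Finset.subset_union_left : A ⊆ A ∪ Pq M q)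
    linarith

open scoped Classical in
/-- The sum of the increments over all quadruples. -/
theorem dq_sum (M : Mod d) (p : unitInterval) (L m : ℕ) (hm : 1 ≤ m) (S : Finset M.ι)
    (hS : (S : Set M.ι) = In M (Bo 0 L)) :
    (p : ℝ) ^ 5 * ∑ q ∈ Tq M L, dq M p L m S q ≤
      (7 : ℝ) ^ (4 * d) * (8 * ((2 * L + 1 : ℕ) : ℝ) ^ d * √((4 * d : ℝ) / m)) ∧
    ∀ q, 0 ≤ dq M p L m S q := by
  have hp0 : (0 : ℝ) ≤ p := p.2.1
  have hp1 : (p : ℝ) ≤ 1 := p.2.2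
  have hok : Ok (fun _ : M.ι => (p : ℝ)) := fun _ => ⟨hp0, hp1⟩
  set B : Finset (Z d) := Bf 0 L with hBdef
  have hBc : (B : Set (Z d)) = Bo 0 L := coe_Bf 0 L
  set C : Z d → Finset M.ι → Set (Z d) := fun u A => cl M (cfgOf A) (Bo 0 L) u with hC
  have hC1 : ∀ u ∈ B, ∀ A, C u A ⊆ B := by
    intro u hu A
    rw [hBc]
    exact cl_subset (mem_Bf.1 hu)
  have hC2 : ∀ u ∈ B, ∀ A, u ∈ C u A := fun u _ A => SimpleGraph.Reachable.refl u
  have hC4 : ∀ u ∈ B, ∀ A A', A ⊆ A' → C u A ⊆ C u A' := fun u _ A A' h =>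
    cl_mono (cfg_mono h) (Subset.refl _) u
  set f : Finset M.ι → ℝ := Nf m B C with hf
  have hfa : ∀ A A', A ⊆ A' → f A' ≤ f A := fun A A' h => Nf_anti hm hC1 hC4 h
  set w : M.ι → ℝ := fun c => (p : ℝ) * (1 - p) *
    Ex (fun _ : M.ι => (p : ℝ)) S (fun A => f (A.erase c) - f (insert c A)) with hw
  have hw0 : ∀ c, 0 ≤ w c := by
    intro c
    refine mul_nonneg (mul_nonneg hp0 (by linarith)) (H974.Ex_nonneg hok fun A _ => ?_)
    have := hfa (A.erase c) (insert c A)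
      ((Finset.erase_subset c A).trans (Finset.subset_insert c A))
    linarith
  have hd0 : ∀ q, 0 ≤ dq M p L m S q := by
    intro q
    refine H974.Ex_nonneg hok fun A _ => ?_
    have := hfa A (A ∪ Pq M q) Finset.subset_union_left
    linarith
  refine ⟨?_, hd0⟩
  -- influence bound
  have hI : ∑ c ∈ S, w c ≤ 8 * B.card * √((4 * d : ℝ) / m) := by
    refine Pool.Agent.Y689.CB.ibp M.ι (Z d) S (fun _ => (p : ℝ)) (4 * d) B C (tc M) hok
      (by positivity) ?_ hC1 hC2 m hm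
    intro u hu
    have := Pool.Agent.Y210.CB.expl d M p B u S hu (by rw [hBc]; exact hS)
    rw [hBc] at this
    exact this
  have hPS : ∀ q ∈ Tq M L, Pq M q ⊆ S := by
    intro q hq c hc
    obtain ⟨⟨⟨b1, b2⟩, b3, b4⟩, n1, n2, -⟩ := mem_Tq.1 hq
    have : c ∈ (S : Set M.ι) := by
      rw [hS]
      unfold Pq at hc
      rcases Finset.mem_union.1 hc with h | h
      · exact ⟨_, b1, _, b2, n1, h⟩
      · exact ⟨_, b3, _, b4, n2, h⟩
    exact this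
  have hq1 : ∀ q ∈ Tq M L, (p : ℝ) ^ 5 * dq M p L m S q ≤ ∑ c ∈ Pq M q, w c := by
    intro q hq
    have hT := Pool.Agent.Y960.CB.tel M.ι S (Pq M q) (fun _ => (p : ℝ)) p f hok (hPS q hq) hp0 hp1
      (fun _ _ => le_rfl) (fun A A' h _ => hfa A A' h)
    refine le_trans ?_ hT
    refine mul_le_mul_of_nonneg_right ?_ (hd0 q)
    exact pow_le_pow_of_le_one hp0 hp1 (by have := Pq_card M q; omega)
  have hsum : ∑ q ∈ Tq M L, ∑ c ∈ Pq M q, w c ≤ (7 : ℝ) ^ (4 * d) * ∑ c ∈ S, w c := by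
    have e : ∀ q ∈ Tq M L, ∑ c ∈ Pq M q, w c = ∑ c ∈ S, if c ∈ Pq M q then w c else 0 := by
      intro q hq
      rw [← Finset.sum_filter]
      refine Finset.sum_congr ?_ fun _ _ => rfl
      ext c
      rw [Finset.mem_filter]
      exact ⟨fun h => ⟨hPS q hq h, h⟩, fun h => h.2⟩
    rw [Finset.sum_congr rfl e, Finset.sum_comm, Finset.mul_sum]
    refine Finset.sum_le_sum fun c _ => ?_
    rw [← Finset.sum_filter, Finset.sum_const, nsmul_eq_mul]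
    refine mul_le_mul_of_nonneg_right ?_ (hw0 c)
    have := Tq_count M L c
    exact_mod_cast this
  have hB : (B.card : ℝ) = ((2 * L + 1 : ℕ) : ℝ) ^ d := by
    rw [hBdef, card_Bf]; push_cast; ring
  rw [hB] at hI
  rw [Finset.mul_sum]
  calc ∑ q ∈ Tq M L, (p : ℝ) ^ 5 * dq M p L m S q ≤ ∑ q ∈ Tq M L, ∑ c ∈ Pq M q, w c :=
        Finset.sum_le_sum hq1
    _ ≤ (7 : ℝ) ^ (4 * d) * ∑ c ∈ S, w c := hsum
    _ ≤ _ := mul_le_mul_of_nonneg_left hI (by positivity)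

open scoped Classical in
/-- One pair of vertices. -/
theorem one_pair (hctc : S_ctc) (M : Mod d) (p : unitInterval) (hM : Nd M) (hQ : Qm M)
    (L m : ℕ) (hm : 2 ≤ m) (S : Finset M.ι)
    (hS : (S : Set M.ι) = In M (Bo 0 L)) (D : Set (Z d)) (hD : D ⊆ Bo 0 L) (x y : Z d)
    (hx : x ∈ D) (hy : y ∈ D) (τ : ℝ)
    (h : τ ≤ (mu M p).real (Cn M D x y)) :
    τ * (mu M p).real (Ev M L m x y) ≤
      ∑ q ∈ Tq M L, if q.1.1 ∈ D then dq M p L m S q else 0 := by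
  have h1 := hctc d M p L m D x y hM hQ hm hD hx hy
  have h2 : τ * (mu M p).real (Ev M L m x y) ≤
      (mu M p).real (Ev M L m x y) * (mu M p).real (Cn M D x y) := by
    rw [mul_comm]
    exact mul_le_mul_of_nonneg_left h measureReal_nonneg
  refine (h2.trans h1).trans ?_
  rw [← Finset.sum_filter]
  have hsub : Ev M L m x y ∩ Kt M L D x y ⊆
      ⋃ q ∈ (Tq M L).filter (fun q => q.1.1 ∈ D), Eq4 M L m x y q.1.1 q.2.1 := by
    rintro ω ⟨h3, a, ha, b, hb, a', ha', b', hb', n1, n2, ⟨c, c1, c2⟩, h4, h5⟩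
    simp only [mem_iUnion]
    refine ⟨((a, b), (a', b')), ?_, h3, h4, h5⟩
    rw [Finset.mem_filter, mem_Tq]
    exact ⟨⟨⟨⟨hD ha, hD hb⟩, ha', hb'⟩, n1, n2, c, c1, c2⟩, ha⟩
  refine (measureReal_mono hsub (measure_ne_top _ _)).trans ?_
  refine (measureReal_biUnion_finset_le _ _).trans ?_
  refine Finset.sum_le_sum fun q hq => ?_
  rw [Finset.mem_filter] at hq
  exact Eq4_le M p L m (by omega) S hS x y (hD hx) (hD hy) q hq.1

lemma sum_ite_const {α : Type} (s : Finset α) (P : α → Prop) [DecidablePred P] (r : ℝ) :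
    ∑ u ∈ s, (if P u then r else 0) = (s.filter P).card * r := by
  rw [← Finset.sum_filter, Finset.sum_const, nsmul_eq_mul]

theorem box2 (hctc : S_ctc) : S_box2 := by
  classical
  intro d M p hM hQ hp
  have hp0 : (0 : ℝ) < p := by exact_mod_cast hp
  have hp1 : (p : ℝ) ≤ 1 := p.2.2
  set K : ℝ := ((p : ℝ) ^ 5)⁻¹ * (7 : ℝ) ^ (4 * d) * 8 * 32 ^ d * √(4 * d : ℝ) with hK
  have hK0 : 0 ≤ K := by positivity
  refine ⟨K + 1, by linarith, ?_⟩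
  intro L m n Q τ hm hQL hτ hcn
  set S : Finset M.ι := (In_fin M (Bo_finite 0 L)).toFinset with hSdef
  have hS : (S : Set M.ι) = In M (Bo 0 L) := (In_fin M (Bo_finite 0 L)).coe_toFinset
  obtain ⟨hs, hd0⟩ := dq_sum M p L m (by omega) S hS
  set δ : (Z d × Z d) × (Z d × Z d) → ℝ := dq M p L m S with hδ
  set V : ℝ := ((2 * L + 1 : ℕ) : ℝ) ^ d with hV
  have hV0 : 0 ≤ V := by positivity
  have hm0 : (0 : ℝ) < m := by
    have : 0 < m := by omega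
    exact_mod_cast this
  have hsm : 0 < √(m : ℝ) := Real.sqrt_pos.2 hm0
  have hsq : √((4 * d : ℝ) / m) = √(4 * d : ℝ) / √(m : ℝ) := Real.sqrt_div (by positivity) _
  -- one pair
  have h1 : ∀ u ∈ Bf (0 : Z d) Q, ∀ x ∈ Bf u n, ∀ y ∈ Bf u n,
      τ * (mu M p).real (Ev M L m x y) ≤
        ∑ q ∈ Tq M L, if q.1.1 ∈ Bo u (4 * n) then δ q else 0 := by
    intro u hu x hx y hy
    have hD : Bo u (4 * n) ⊆ Bo (0 : Z d) L := Bo_sub (mem_Bf.1 hu) (by omega)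
    exact one_pair hctc M p hM hQ L m hm S hS (Bo u (4 * n)) hD x y
      (Bo_mono u (by omega) (mem_Bf.1 hx)) (Bo_mono u (by omega) (mem_Bf.1 hy)) τ
      (hcn u hu x hx y hy)
  have h2 : τ * ∑ u ∈ Bf (0 : Z d) Q, ∑ x ∈ Bf u n, ∑ y ∈ Bf u n,
      (mu M p).real (Ev M L m x y) ≤
      ∑ u ∈ Bf (0 : Z d) Q, ∑ x ∈ Bf u n, ∑ y ∈ Bf u n,
        ∑ q ∈ Tq M L, if q.1.1 ∈ Bo u (4 * n) then δ q else 0 := by
    rw [Finset.mul_sum]
    refine Finset.sum_le_sum fun u hu => ?_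
    rw [Finset.mul_sum]
    refine Finset.sum_le_sum fun x hx => ?_
    rw [Finset.mul_sum]
    exact Finset.sum_le_sum fun y hy => h1 u hu x hx y hy
  have h3 : ∑ u ∈ Bf (0 : Z d) Q, ∑ x ∈ Bf u n, ∑ y ∈ Bf u n,
        ∑ q ∈ Tq M L, (if q.1.1 ∈ Bo u (4 * n) then δ q else 0) ≤
      (2 * (4 * n) + 1 : ℕ) ^ d * ((2 * n + 1 : ℕ) ^ d * (2 * n + 1 : ℕ) ^ d) *
        ∑ q ∈ Tq M L, δ q := by
    have e1 : ∀ u ∈ Bf (0 : Z d) Q, ∑ x ∈ Bf u n, ∑ y ∈ Bf u n,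
        ∑ q ∈ Tq M L, (if q.1.1 ∈ Bo u (4 * n) then δ q else 0) =
        ((2 * n + 1 : ℕ) ^ d * (2 * n + 1 : ℕ) ^ d : ℝ) *
          ∑ q ∈ Tq M L, (if q.1.1 ∈ Bo u (4 * n) then δ q else 0) := by
      intro u _
      rw [Finset.sum_const, Finset.sum_const, card_Bf, nsmul_eq_mul, nsmul_eq_mul]
      push_cast
      ring
    rw [Finset.sum_congr rfl e1, ← Finset.mul_sum, Finset.sum_comm]
    have e2 : ∑ q ∈ Tq M L, ∑ u ∈ Bf (0 : Z d) Q, (if q.1.1 ∈ Bo u (4 * n) then δ q else 0) ≤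
        ∑ q ∈ Tq M L, ((2 * (4 * n) + 1 : ℕ) : ℝ) ^ d * δ q := by
      refine Finset.sum_le_sum fun q _ => ?_
      rw [sum_ite_const]
      refine mul_le_mul_of_nonneg_right ?_ (hd0 q)
      have hsub : (Bf (0 : Z d) Q).filter (fun u => q.1.1 ∈ Bo u (4 * n)) ⊆
          Bf q.1.1 (4 * n) := by
        intro u hu
        rw [Finset.mem_filter] at hu
        exact mem_Bf.2 (mem_Bo_comm.1 hu.2)
      have := Finset.card_le_card hsub
      rw [card_Bf] at this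
      exact_mod_cast this
    rw [← Finset.mul_sum] at e2
    calc _ ≤ ((2 * n + 1 : ℕ) ^ d * (2 * n + 1 : ℕ) ^ d : ℝ) *
          (((2 * (4 * n) + 1 : ℕ) : ℝ) ^ d * ∑ q ∈ Tq M L, δ q) :=
          mul_le_mul_of_nonneg_left e2 (by positivity)
      _ = _ := by push_cast; ring
  have hδ0 : 0 ≤ ∑ q ∈ Tq M L, δ q := Finset.sum_nonneg fun q _ => hd0 q
  have h4 : ∑ q ∈ Tq M L, δ q ≤
      ((p : ℝ) ^ 5)⁻¹ * ((7 : ℝ) ^ (4 * d) * (8 * V * (√(4 * d : ℝ) / √(m : ℝ)))) := by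
    rw [← hsq]
    rw [← div_eq_inv_mul, le_div_iff₀ (by positivity), mul_comm]
    exact hs
  have h5 : (((2 * (4 * n) + 1 : ℕ) : ℝ) ^ d * (((2 * n + 1 : ℕ) : ℝ) ^ d *
      ((2 * n + 1 : ℕ) : ℝ) ^ d)) ≤ 32 ^ d * ((n : ℝ) + 1) ^ (3 * d) := by
    have k1 : (((2 * (4 * n) + 1 : ℕ) : ℝ) * (((2 * n + 1 : ℕ) : ℝ) *
        ((2 * n + 1 : ℕ) : ℝ))) ≤ 32 * ((n : ℝ) + 1) ^ 3 := by
      push_cast
      have hn : (0 : ℝ) ≤ n := by positivity
      nlinarith [mul_nonneg hn hn, mul_nonneg hn (mul_nonneg hn hn)]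
    calc _ = ((((2 * (4 * n) + 1 : ℕ) : ℝ) * (((2 * n + 1 : ℕ) : ℝ) *
        ((2 * n + 1 : ℕ) : ℝ)))) ^ d := by rw [mul_pow, mul_pow]
      _ ≤ (32 * ((n : ℝ) + 1) ^ 3) ^ d := pow_le_pow_left₀ (by positivity) k1 d
      _ = _ := by rw [mul_pow, ← pow_mul]
  have h6 : τ * ∑ u ∈ Bf (0 : Z d) Q, ∑ x ∈ Bf u n, ∑ y ∈ Bf u n,
      (mu M p).real (Ev M L m x y) ≤ K * ((n : ℝ) + 1) ^ (3 * d) * V / √(m : ℝ) := by
    refine (h2.trans h3).trans ?_
    calc _ ≤ (32 ^ d * ((n : ℝ) + 1) ^ (3 * d)) *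
          (((p : ℝ) ^ 5)⁻¹ * ((7 : ℝ) ^ (4 * d) * (8 * V * (√(4 * d : ℝ) / √(m : ℝ))))) :=
          mul_le_mul h5 h4 hδ0 (by positivity)
      _ = _ := by rw [hK]; ring
  have h7 : ∑ u ∈ Bf (0 : Z d) Q, ∑ x ∈ Bf u n, ∑ y ∈ Bf u n,
      (mu M p).real (Ev M L m x y) ≤ (K * ((n : ℝ) + 1) ^ (3 * d) * V / √(m : ℝ)) / τ := by
    rw [le_div_iff₀ hτ, mul_comm]
    exact h6
  refine h7.trans ?_
  have h8 : (K * ((n : ℝ) + 1) ^ (3 * d) * V / √(m : ℝ)) / τ =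
      K * (((n : ℝ) + 1) ^ (3 * d) * V / √(m : ℝ) / τ) := by ring
  have h9 : (K + 1) / τ * ((n : ℝ) + 1) ^ (3 * d) * V / √(m : ℝ) =
      (K + 1) * (((n : ℝ) + 1) ^ (3 * d) * V / √(m : ℝ) / τ) := by ring
  rw [h8, h9]
  exact mul_le_mul_of_nonneg_right (by linarith) (by positivity)

end

end Pool.Agent.Y290.CB
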